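import Pool.Agent.Helper30.RCU.Defs

/-!
# Project UN (MP_e3e162_pr): the common finite-volume language

`Pool.Agent.Helper30.RCU.Base` contains the finite theory for arbitrary `V`, `ι`, `φ : ι → Sym2 V`,
edge probabilities `p : ι → ℝ`: expectation `ex φ p q E f` of a function `f` of the configuration
`ω ⊆ E`, weight `∏_{ω} p ∏_{E \ ω} (1 - p) q⁻¹ ^ rk ω` (`rk` = rank, so `q⁻¹ ^ rk` is `q ^ clusters`
up to a constant), FKG (`ex_fkg`), monotonicity in the edge set (`ex_union_mono`).

Here: the graph `G` with a ghost vertex `none` and a ghost edge from every vertex.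
-/

set_option autoImplicit false

open Finset

namespace Pool.Agent.Helper86.UN

open Classical Pool.Agent.Helper30.RCU

universe u

/-- edges of `G` and one ghost edge for every vertex -/
abbrev GE {V : Type u} (G : SimpleGraph V) : Type u := G.edgeSet ⊕ V

/-- end vertices: the ghost is `none` -/
def φG {V : Type u} (G : SimpleGraph V) : GE G → Sym2 (Option V) :=
  Sum.elim (fun e => (e : Sym2 V).map some) (fun v => s(some v, none))

/-- `p` on the edges of `G`, `π v` on the ghost edge of `v` -/
def pG {V : Type u} (G : SimpleGraph V) (p : ℝ) (π : V → ℝ) : GE G → ℝ :=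
  Sum.elim (fun _ => p) π

/-- the edges in `F`, as edges of the graph with ghost -/
def LG {V : Type u} (G : SimpleGraph V) (F : Finset G.edgeSet) : Finset (GE G) :=
  F.map Function.Embedding.inl

/-- the ghost edges of the vertices in `U` -/
def RG {V : Type u} (G : SimpleGraph V) (U : Finset V) : Finset (GE G) :=
  U.map Function.Embedding.inr

/-- indicator of `e` open -/
noncomputable def op {ι : Type u} (e : ι) (ω : Finset ι) : ℝ := if e ∈ ω then 1 else 0

/-- free finite-volume expectation -/
noncomputable def exF {V : Type u} (G : SimpleGraph V) (p q : ℝ) (F : Finset G.edgeSet)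
    (f : Finset (GE G) → ℝ) : ℝ :=
  ex (φG G) (pG G p fun _ => 0) q (LG G F) f

/-- ghost probabilities: `1` on the boundary of `F` (wired), `0` on `A`, `1 - exp (-t)` elsewhere -/
noncomputable def πf {V : Type u} (G : SimpleGraph V) (F : Finset G.edgeSet) (A : Set V) (t : ℝ) :
    V → ℝ :=
  fun v => if v ∈ BF G F then 1 else if v ∈ A then 0 else 1 - Real.exp (-t)

/-- wired finite-volume expectation with ghost field `t` off the set `A` -/
noncomputable def exH {V : Type u} (G : SimpleGraph V) (p q : ℝ) (A : Set V) (t : ℝ)
    (F : Finset G.edgeSet) (f : Finset (GE G) → ℝ) : ℝ :=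
  ex (φG G) (pG G p (πf G F A t)) q (LG G F ∪ RG G (VF G F)) f

/-- free infinite-volume probability of `e` open -/
noncomputable def phi0 {V : Type u} (G : SimpleGraph V) (p q : ℝ) (e : G.edgeSet) : ℝ :=
  ⨆ F : Finset G.edgeSet, exF G p q F (op (Sum.inl e))

/-- wired infinite-volume probability of `e` open, with ghost field `t` at every vertex;
`hinf G p q 0 e` is the wired probability `φ¹(e)`. -/
noncomputable def hinf {V : Type u} (G : SimpleGraph V) (p q t : ℝ) (e : G.edgeSet) : ℝ :=
  ⨅ F : {F : Finset G.edgeSet // e ∈ F}, exH G p q ∅ t F.1 (op (Sum.inl e))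

end Pool.Agent.Helper86.UN
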